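import Pool.Agent.H8.JD.Pow

set_option autoImplicit false

/-!
# Transfer of the lower bound to algebras in any universe

`special_any_univ`: if all nilpotent Jordan algebras `J : Type u` over `F : Type u` of dimension at
most `N` are special, so are those in `Type v`.
-/

namespace JD

universe u v w

section mapjp

variable {F : Type u} [Field F] {J : Type v} [NonUnitalNonAssocCommRing J] [Module F J]
  [IsScalarTower F J J] [SMulCommClass F J J]
  {J' : Type w} [NonUnitalNonAssocCommRing J'] [Module F J']
  [IsScalarTower F J' J'] [SMulCommClass F J' J']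

/-- `jpow_map` with the two algebras in different universes. -/
theorem jpow_map' (f : J →ₗ[F] J')
    (hf : ∀ a b, f (a * b) = f a * f b) (hs : Function.Surjective f) (n : ℕ) :
    (jpow F J n).map f = jpow F J' n := by
  induction n using Nat.strong_induction_on with
  | _ n ih =>
    rcases Nat.lt_or_ge n 2 with hn | hn
    · have : n = 0 ∨ n = 1 := by omega
      rcases this with rfl | rfl
      · rw [jpow_zero, jpow_zero, Submodule.map_top]; exact LinearMap.range_eq_top.mpr hs
      · rw [jpow_one, jpow_one, Submodule.map_top]; exact LinearMap.range_eq_top.mpr hs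
    · apply le_antisymm
      · rw [Submodule.map_le_iff_le_comap]
        refine jpow_le_of hn _ fun i j hi hj hij a ha b hb => ?_
        rw [Submodule.mem_comap, hf]
        have h1 : f a ∈ jpow F J' i := by
          rw [← ih i (by omega)]; exact Submodule.mem_map_of_mem ha
        have h2 : f b ∈ jpow F J' j := by
          rw [← ih j (by omega)]; exact Submodule.mem_map_of_mem hb
        have := mul_mem_jpow h1 h2
        rwa [hij] at this
      · refine jpow_le_of hn _ fun i j hi hj hij a ha b hb => ?_
        rw [← ih i (by omega)] at ha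
        rw [← ih j (by omega)] at hb
        obtain ⟨a', ha', rfl⟩ := Submodule.mem_map.mp ha
        obtain ⟨b', hb', rfl⟩ := Submodule.mem_map.mp hb
        rw [← hf]
        apply Submodule.mem_map_of_mem
        have := mul_mem_jpow ha' hb'
        rwa [hij] at this

end mapjp

/-- A copy of `F^d` (used to carry the product of an algebra). -/
def Cpy (F : Type u) (d : ℕ) : Type u := Fin d → F

section cpy

variable {F : Type u} [Field F] {d : ℕ}

instance : AddCommGroup (Cpy F d) := inferInstanceAs (AddCommGroup (Fin d → F))
instance : Module F (Cpy F d) := inferInstanceAs (Module F (Fin d → F))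

variable {J : Type v} [NonUnitalNonAssocCommRing J] [Module F J]
  [IsScalarTower F J J] [SMulCommClass F J J]

/-- The product of `J` carried over to `F^d`. -/
@[reducible] def cpyRing (φ : J ≃ₗ[F] Cpy F d) : NonUnitalNonAssocCommRing (Cpy F d) :=
  { (inferInstance : AddCommGroup (Cpy F d)) with
    mul := fun a b => φ (φ.symm a * φ.symm b)
    left_distrib := fun a b c => by
      change φ (φ.symm a * φ.symm (b + c)) = φ (φ.symm a * φ.symm b) + φ (φ.symm a * φ.symm c)
      rw [map_add, mul_add, map_add]
    right_distrib := fun a b c => by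
      change φ (φ.symm (a + b) * φ.symm c) = φ (φ.symm a * φ.symm c) + φ (φ.symm b * φ.symm c)
      rw [map_add, add_mul, map_add]
    zero_mul := fun a => by
      change φ (φ.symm 0 * φ.symm a) = 0
      rw [map_zero, zero_mul, map_zero]
    mul_zero := fun a => by
      change φ (φ.symm a * φ.symm 0) = 0
      rw [map_zero, mul_zero, map_zero]
    mul_comm := fun a b => by
      change φ (φ.symm a * φ.symm b) = φ (φ.symm b * φ.symm a)
      rw [mul_comm] }

end cpy

/-- The lower bound for algebras in the universe of the field gives it in every universe. -/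
theorem special_any_univ (F : Type u) [Field F] (N : ℕ)
    (H : ∀ (J : Type u) [NonUnitalNonAssocCommRing J] [Module F J] [IsScalarTower F J J]
      [SMulCommClass F J J] [Module.Finite F J], IsJordan J → IsNilpotentAlg F J →
      Module.finrank F J ≤ N → IsSpecial.{u, u, u} F J)
    (J : Type v) [NonUnitalNonAssocCommRing J] [Module F J] [IsScalarTower F J J]
    [SMulCommClass F J J] [Module.Finite F J] (hJ : IsJordan J) (hn : IsNilpotentAlg F J)
    (hd : Module.finrank F J ≤ N) : IsSpecial.{u, v, u} F J := by
  classical
  let φ : J ≃ₗ[F] Cpy F (Module.finrank F J) := (Module.finBasis F J).equivFun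
  let R : NonUnitalNonAssocCommRing (Cpy F (Module.finrank F J)) := cpyRing φ
  have hmul : ∀ a b : Cpy F (Module.finrank F J), a * b = φ (φ.symm a * φ.symm b) :=
    fun _ _ => rfl
  have hφ : ∀ a b : J, φ (a * b) = φ a * φ b := fun a b => by
    rw [hmul, LinearEquiv.symm_apply_apply, LinearEquiv.symm_apply_apply]
  have hst : IsScalarTower F (Cpy F (Module.finrank F J)) (Cpy F (Module.finrank F J)) :=
    ⟨fun c a b => by
      rw [smul_eq_mul, smul_eq_mul, hmul, hmul, map_smul, smul_mul_assoc, map_smul]⟩
  have hsc : SMulCommClass F (Cpy F (Module.finrank F J)) (Cpy F (Module.finrank F J)) :=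
    ⟨fun c a b => by
      rw [smul_eq_mul, smul_eq_mul, hmul, hmul, map_smul, mul_smul_comm, map_smul]⟩
  have hfin : Module.Finite F (Cpy F (Module.finrank F J)) := Module.Finite.equiv φ
  have hJ' : IsJordan (Cpy F (Module.finrank F J)) := fun x y => by
    obtain ⟨x, rfl⟩ := φ.surjective x
    obtain ⟨y, rfl⟩ := φ.surjective y
    rw [← hφ, ← hφ, ← hφ, ← hφ, ← hφ, hJ]
  have hn' : IsNilpotentAlg F (Cpy F (Module.finrank F J)) := by
    obtain ⟨n, h1, h2⟩ := hn
    refine ⟨n, h1, ?_⟩
    rw [← jpow_map' (φ : J →ₗ[F] Cpy F (Module.finrank F J)) hφ φ.surjective n, h2,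
      Submodule.map_bot]
  obtain ⟨A, i1, i2, i3, i4, f, hf, hfm⟩ := H (Cpy F (Module.finrank F J)) hJ' hn'
    (by rw [← φ.finrank_eq]; exact hd)
  refine ⟨A, i1, i2, i3, i4, f.comp (φ : J →ₗ[F] Cpy F (Module.finrank F J)),
    hf.comp φ.injective, fun a b => ?_⟩
  have := hfm (φ a) (φ b)
  rw [← hφ] at this
  exact this

end JD
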