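import Pool.Agent.H8.JD.Basic

set_option autoImplicit false

/-!
# A nilpotent exceptional Jordan algebra of dimension 12 (the example of `UpperBoundTwelve`)

In an associative algebra, `x y + y x = 0` forces `x²` to commute with `y`, hence with
`t = y²`; so, with `s = x²`, the elements `t ∘ (s ∘ z)` and `s ∘ (t ∘ z)` agree. In the example
`x y = 0` but the two elements differ.
-/

namespace JD

namespace Twelve

universe u v w

/-- The underlying space of the example. The coordinates `0, …, 11` belong to basis vectors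
called `x, y, z, s, t, r, p, q, v, m, w, u`. -/
def Ex (F : Type u) : Type u := Fin 12 → F

section Ex

variable {F : Type u}

theorem ext_iff12 {a b : Ex F} : a = b ↔ a 0 = b 0 ∧ a 1 = b 1 ∧ a 2 = b 2 ∧ a 3 = b 3 ∧
    a 4 = b 4 ∧ a 5 = b 5 ∧ a 6 = b 6 ∧ a 7 = b 7 ∧ a 8 = b 8 ∧ a 9 = b 9 ∧ a 10 = b 10 ∧
    a 11 = b 11 := by
  constructor
  · rintro rfl; simp
  · rintro ⟨h0, h1, h2, h3, h4, h5, h6, h7, h8, h9, h10, h11⟩
    funext i
    fin_cases i <;> assumption


variable [Field F]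

instance : AddCommGroup (Ex F) := inferInstanceAs (AddCommGroup (Fin 12 → F))
instance : Module F (Ex F) := inferInstanceAs (Module F (Fin 12 → F))

/-- The product: `x² = s, y² = t, yz = r, sy = p, tx = q, sz = v, xr = m, ym = w, qz = -2w,
xw = u, tv = 4u, rp = -2u`, all other products of basis vectors (in the order chosen) are `0`. -/
def mulEx (a b : Ex F) : Ex F :=
  ![0, 0, 0,
    a 0 * b 0,
    a 1 * b 1,
    a 1 * b 2 + a 2 * b 1,
    a 3 * b 1 + a 1 * b 3,
    a 4 * b 0 + a 0 * b 4,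
    a 3 * b 2 + a 2 * b 3,
    a 0 * b 5 + a 5 * b 0,
    a 1 * b 9 + a 9 * b 1 - 2 * (a 7 * b 2 + a 2 * b 7),
    a 0 * b 10 + a 10 * b 0 + 4 * (a 4 * b 8 + a 8 * b 4) - 2 * (a 5 * b 6 + a 6 * b 5)]

instance : Mul (Ex F) := ⟨mulEx⟩

theorem mul_def (a b : Ex F) : a * b = mulEx a b := rfl

theorem mul_0 (a b : Ex F) : (a * b) 0 = 0 := rfl
theorem mul_1 (a b : Ex F) : (a * b) 1 = 0 := rfl
theorem mul_2 (a b : Ex F) : (a * b) 2 = 0 := rfl
theorem mul_3 (a b : Ex F) : (a * b) 3 = a 0 * b 0 := rfl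
theorem mul_4 (a b : Ex F) : (a * b) 4 = a 1 * b 1 := rfl
theorem mul_5 (a b : Ex F) : (a * b) 5 = a 1 * b 2 + a 2 * b 1 := rfl
theorem mul_6 (a b : Ex F) : (a * b) 6 = a 3 * b 1 + a 1 * b 3 := rfl
theorem mul_7 (a b : Ex F) : (a * b) 7 = a 4 * b 0 + a 0 * b 4 := rfl
theorem mul_8 (a b : Ex F) : (a * b) 8 = a 3 * b 2 + a 2 * b 3 := rfl
theorem mul_9 (a b : Ex F) : (a * b) 9 = a 0 * b 5 + a 5 * b 0 := rfl
theorem mul_10 (a b : Ex F) :
    (a * b) 10 = a 1 * b 9 + a 9 * b 1 - 2 * (a 7 * b 2 + a 2 * b 7) := rfl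
theorem mul_11 (a b : Ex F) :
    (a * b) 11 = a 0 * b 10 + a 10 * b 0 + 4 * (a 4 * b 8 + a 8 * b 4)
      - 2 * (a 5 * b 6 + a 6 * b 5) := rfl

theorem add_ap (a b : Ex F) (i : Fin 12) : (a + b) i = a i + b i := rfl
theorem smul_ap (c : F) (a : Ex F) (i : Fin 12) : (c • a) i = c * a i := rfl
theorem zero_ap (i : Fin 12) : (0 : Ex F) i = 0 := rfl

instance : NonUnitalNonAssocCommRing (Ex F) :=
  { (inferInstance : AddCommGroup (Ex F)), (inferInstance : Mul (Ex F)) with
    left_distrib := fun a b c => by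
      rw [ext_iff12]
      simp only [mul_0, mul_1, mul_2, mul_3, mul_4, mul_5, mul_6, mul_7, mul_8, mul_9, mul_10,
        mul_11, add_ap]
      refine ⟨?_, ?_, ?_, ?_, ?_, ?_, ?_, ?_, ?_, ?_, ?_, ?_⟩ <;> first | trivial | ring
    right_distrib := fun a b c => by
      rw [ext_iff12]
      simp only [mul_0, mul_1, mul_2, mul_3, mul_4, mul_5, mul_6, mul_7, mul_8, mul_9, mul_10,
        mul_11, add_ap]
      refine ⟨?_, ?_, ?_, ?_, ?_, ?_, ?_, ?_, ?_, ?_, ?_, ?_⟩ <;> first | trivial | ring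
    zero_mul := fun a => by
      rw [ext_iff12]
      simp only [mul_0, mul_1, mul_2, mul_3, mul_4, mul_5, mul_6, mul_7, mul_8, mul_9, mul_10,
        mul_11, zero_ap]
      refine ⟨?_, ?_, ?_, ?_, ?_, ?_, ?_, ?_, ?_, ?_, ?_, ?_⟩ <;> first | trivial | ring
    mul_zero := fun a => by
      rw [ext_iff12]
      simp only [mul_0, mul_1, mul_2, mul_3, mul_4, mul_5, mul_6, mul_7, mul_8, mul_9, mul_10,
        mul_11, zero_ap]
      refine ⟨?_, ?_, ?_, ?_, ?_, ?_, ?_, ?_, ?_, ?_, ?_, ?_⟩ <;> first | trivial | ring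
    mul_comm := fun a b => by
      rw [ext_iff12]
      simp only [mul_0, mul_1, mul_2, mul_3, mul_4, mul_5, mul_6, mul_7, mul_8, mul_9, mul_10,
        mul_11]
      refine ⟨?_, ?_, ?_, ?_, ?_, ?_, ?_, ?_, ?_, ?_, ?_, ?_⟩ <;> first | trivial | ring }

instance : IsScalarTower F (Ex F) (Ex F) := ⟨fun c a b => by
  rw [smul_eq_mul, smul_eq_mul, ext_iff12]
  simp only [mul_0, mul_1, mul_2, mul_3, mul_4, mul_5, mul_6, mul_7, mul_8, mul_9, mul_10,
    mul_11, smul_ap]
  refine ⟨?_, ?_, ?_, ?_, ?_, ?_, ?_, ?_, ?_, ?_, ?_, ?_⟩ <;> first | trivial | ring⟩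

instance : SMulCommClass F (Ex F) (Ex F) := ⟨fun c a b => by
  rw [smul_eq_mul, smul_eq_mul, ext_iff12]
  simp only [mul_0, mul_1, mul_2, mul_3, mul_4, mul_5, mul_6, mul_7, mul_8, mul_9, mul_10,
    mul_11, smul_ap]
  refine ⟨?_, ?_, ?_, ?_, ?_, ?_, ?_, ?_, ?_, ?_, ?_, ?_⟩ <;> first | trivial | ring⟩

theorem isJordan_ex : IsJordan (Ex F) := by
  intro a b
  rw [ext_iff12]
  simp only [mul_0, mul_1, mul_2, mul_3, mul_4, mul_5, mul_6, mul_7, mul_8, mul_9, mul_10,
    mul_11]
  refine ⟨?_, ?_, ?_, ?_, ?_, ?_, ?_, ?_, ?_, ?_, ?_, ?_⟩ <;> first | trivial | ring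

/-- The weights of the basis vectors. -/
def wt : Fin 12 → ℕ := ![1, 1, 1, 2, 2, 2, 3, 3, 3, 3, 4, 5]

/-- The filtration by weight. -/
def filt (F : Type u) [Field F] (n : ℕ) : Submodule F (Ex F) where
  carrier := {a | ∀ i, wt i < n → a i = 0}
  add_mem' := by
    intro a b ha hb i hi
    rw [add_ap, ha i hi, hb i hi, add_zero]
  zero_mem' := fun i _ => rfl
  smul_mem' := by
    intro c a ha i hi
    rw [smul_ap, ha i hi, mul_zero]

theorem mem_filt {n : ℕ} {a : Ex F} : a ∈ filt F n ↔ ∀ i, wt i < n → a i = 0 := Iff.rfl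

theorem mul_mem_filt {i j : ℕ} {a b : Ex F} (ha : a ∈ filt F i) (hb : b ∈ filt F j) :
    a * b ∈ filt F (i + j) := by
  have key : ∀ l m : Fin 12, wt l + wt m < i + j → a l * b m = 0 := by
    intro l m h
    rcases Nat.lt_or_ge (wt l) i with h1 | h1
    · rw [ha l h1, zero_mul]
    · rw [hb m (by omega), mul_zero]
  intro k hk
  -- the values of the weights
  have h0 : wt 0 = 1 := rfl
  have h1 : wt 1 = 1 := rfl
  have h2 : wt 2 = 1 := rfl
  have h3 : wt 3 = 2 := rfl
  have h4 : wt 4 = 2 := rfl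
  have h5 : wt 5 = 2 := rfl
  have h6 : wt 6 = 3 := rfl
  have h7 : wt 7 = 3 := rfl
  have h8 : wt 8 = 3 := rfl
  have h9 : wt 9 = 3 := rfl
  have h10 : wt 10 = 4 := rfl
  have h11 : wt 11 = 5 := rfl
  fin_cases k
  · rfl
  · rfl
  · rfl
  · change wt 3 < i + j at hk
    change (a * b) 3 = 0
    rw [mul_3, key 0 0 (by omega)]
  · change wt 4 < i + j at hk
    change (a * b) 4 = 0
    rw [mul_4, key 1 1 (by omega)]
  · change wt 5 < i + j at hk
    change (a * b) 5 = 0
    rw [mul_5, key 1 2 (by omega), key 2 1 (by omega), add_zero]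
  · change wt 6 < i + j at hk
    change (a * b) 6 = 0
    rw [mul_6, key 3 1 (by omega), key 1 3 (by omega), add_zero]
  · change wt 7 < i + j at hk
    change (a * b) 7 = 0
    rw [mul_7, key 4 0 (by omega), key 0 4 (by omega), add_zero]
  · change wt 8 < i + j at hk
    change (a * b) 8 = 0
    rw [mul_8, key 3 2 (by omega), key 2 3 (by omega), add_zero]
  · change wt 9 < i + j at hk
    change (a * b) 9 = 0
    rw [mul_9, key 0 5 (by omega), key 5 0 (by omega), add_zero]
  · change wt 10 < i + j at hk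
    change (a * b) 10 = 0
    rw [mul_10, key 1 9 (by omega), key 9 1 (by omega), key 7 2 (by omega), key 2 7 (by omega)]
    ring
  · change wt 11 < i + j at hk
    change (a * b) 11 = 0
    rw [mul_11, key 0 10 (by omega), key 10 0 (by omega), key 4 8 (by omega),
      key 8 4 (by omega), key 5 6 (by omega), key 6 5 (by omega)]
    ring

theorem jpow_le_filt (n : ℕ) : jpow F (Ex F) n ≤ filt F n := by
  induction n using Nat.strong_induction_on with
  | _ n ih =>
    match n, ih with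
    | 0, _ => exact fun a _ i hi => absurd hi (Nat.not_lt_zero _)
    | 1, _ =>
      intro a _ i hi
      exfalso
      fin_cases i <;> simp [wt] at hi
    | (n + 2), ih =>
      rw [jpow]
      refine iSup_le fun i => ?_
      rw [Submodule.map₂_le]
      intro a ha b hb
      have h := mul_mem_filt (ih _ (by omega) ha) (ih _ (by omega) hb)
      have hn : (i : ℕ) + 1 + (n + 1 - i) = n + 2 := by omega
      rwa [hn] at h

theorem isNilpotentAlg_ex : IsNilpotentAlg F (Ex F) := by
  refine ⟨6, by norm_num, ?_⟩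
  rw [eq_bot_iff]
  intro a ha
  have h := jpow_le_filt 6 ha
  rw [Submodule.mem_bot]
  funext i
  exact h i (by fin_cases i <;> simp [wt])

theorem finrank_ex : Module.finrank F (Ex F) = 12 := by
  change Module.finrank F (Fin 12 → F) = 12
  simp

/-- Basis vectors. -/
def e (F : Type u) [Field F] (i : Fin 12) : Ex F := fun j => if j = i then 1 else 0

theorem not_isSpecial_ex (h2 : (2 : F) ≠ 0) : ¬ IsSpecial.{u, u, w} F (Ex F) := by
  rintro ⟨A, _, _, _, _, f, hf, hmul⟩
  have hd : ∀ a b : Ex F, (2 : F) • f (a * b) = f a * f b + f b * f a := by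
    intro a b
    rw [hmul, smul_smul, mul_inv_cancel₀ h2, one_smul]
  have cancel : ∀ c : A, (2 : F) • c = 0 → c = 0 := by
    intro c hc
    exact (smul_eq_zero.1 hc).resolve_left h2
  have two : ∀ c : A, (2 : F) • c = c + c := fun c => two_smul F c
  -- products of basis vectors
  have p01 : e F 0 * e F 1 = 0 := by
    rw [ext_iff12]
    simp [mul_0, mul_1, mul_2, mul_3, mul_4, mul_5, mul_6, mul_7, mul_8, mul_9, mul_10,
      mul_11, zero_ap, e]
  have p00 : e F 0 * e F 0 = e F 3 := by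
    rw [ext_iff12]
    simp [mul_0, mul_1, mul_2, mul_3, mul_4, mul_5, mul_6, mul_7, mul_8, mul_9, mul_10,
      mul_11, e]
  have p11 : e F 1 * e F 1 = e F 4 := by
    rw [ext_iff12]
    simp [mul_0, mul_1, mul_2, mul_3, mul_4, mul_5, mul_6, mul_7, mul_8, mul_9, mul_10,
      mul_11, e]
  have p32 : e F 3 * e F 2 = e F 8 := by
    rw [ext_iff12]
    simp [mul_0, mul_1, mul_2, mul_3, mul_4, mul_5, mul_6, mul_7, mul_8, mul_9, mul_10,
      mul_11, e]
  have p42 : e F 4 * e F 2 = 0 := by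
    rw [ext_iff12]
    simp [mul_0, mul_1, mul_2, mul_3, mul_4, mul_5, mul_6, mul_7, mul_8, mul_9, mul_10,
      mul_11, zero_ap, e]
  have p48 : e F 4 * e F 8 = (4 : F) • e F 11 := by
    rw [ext_iff12]
    simp [mul_0, mul_1, mul_2, mul_3, mul_4, mul_5, mul_6, mul_7, mul_8, mul_9, mul_10,
      mul_11, e, smul_ap]
  -- the images
  set x := f (e F 0) with hx
  set y := f (e F 1) with hy
  set z := f (e F 2) with hz
  have hxy : x * y = -(y * x) := by
    have h := hd (e F 0) (e F 1)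
    rw [p01, map_zero, smul_zero] at h
    exact eq_neg_of_add_eq_zero_left h.symm
  have hs : f (e F 3) = x * x := by
    have h := hd (e F 0) (e F 0)
    rw [p00, ← two] at h
    have h' := cancel (f (e F 3) - x * x) (by rw [smul_sub, h, sub_self])
    exact sub_eq_zero.1 h'
  have ht : f (e F 4) = y * y := by
    have h := hd (e F 1) (e F 1)
    rw [p11, ← two] at h
    have h' := cancel (f (e F 4) - y * y) (by rw [smul_sub, h, sub_self])
    exact sub_eq_zero.1 h'
  have hsy : x * x * y = y * (x * x) := by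
    rw [mul_assoc, hxy, mul_neg, ← mul_assoc, hxy, neg_mul, neg_neg, mul_assoc]
  have hst : f (e F 3) * f (e F 4) = f (e F 4) * f (e F 3) := by
    rw [hs, ht, ← mul_assoc, hsy, mul_assoc, hsy, ← mul_assoc]
  have htz : f (e F 4) * z = -(z * f (e F 4)) := by
    have h := hd (e F 4) (e F 2)
    rw [p42, map_zero, smul_zero] at h
    exact eq_neg_of_add_eq_zero_left h.symm
  have hv : (2 : F) • f (e F 8) = f (e F 3) * z + z * f (e F 3) := by
    have h := hd (e F 3) (e F 2)
    rwa [p32] at h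
  have hu : (2 : F) • ((4 : F) • f (e F 11)) = f (e F 4) * f (e F 8) + f (e F 8) * f (e F 4) := by
    have h := hd (e F 4) (e F 8)
    rwa [p48, map_smul] at h
  generalize f (e F 3) = s at *
  generalize f (e F 4) = t at *
  generalize f (e F 8) = v at *
  have h1 : t * (s * z + z * s) + (s * z + z * s) * t = 0 := by
    have a1 : t * (s * z) = -(s * z * t) := by
      rw [← mul_assoc, ← hst, mul_assoc, htz, mul_neg, ← mul_assoc]
    have a2 : t * (z * s) = -(z * s * t) := by
      rw [← mul_assoc, htz, neg_mul, mul_assoc, ← hst, ← mul_assoc]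
    rw [mul_add, add_mul, a1, a2]
    abel
  rw [← hv, mul_smul_comm, smul_mul_assoc, ← smul_add, ← hu] at h1
  have h4 : (4 : F) ≠ 0 := by
    have : (4 : F) = 2 * 2 := by norm_num
    rw [this]; exact mul_ne_zero h2 h2
  have h5 : f (e F 11) = 0 := (smul_eq_zero.1 (cancel _ (cancel _ h1))).resolve_left h4
  have h6 : e F 11 = 0 := hf (by rw [h5, map_zero])
  have h7 : (e F 11) 11 = 0 := by rw [h6]; rfl
  simp [e] at h7

end Ex

end Twelve

universe u w

open Twelve in
/-- Over every field of characteristic not 2 there is a nilpotent exceptional Jordan algebra of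
dimension 12. -/
theorem exists_exceptional_twelve (F : Type u) [Field F] (h2 : (2 : F) ≠ 0) :
    ∃ (J : Type u) (_ : NonUnitalNonAssocCommRing J) (_ : Module F J)
      (_ : IsScalarTower F J J) (_ : SMulCommClass F J J),
      IsJordan J ∧ IsNilpotentAlg F J ∧ ¬ IsSpecial.{u, u, w} F J ∧
        Module.finrank F J = 12 :=
  ⟨Ex F, inferInstance, inferInstance, inferInstance, inferInstance, isJordan_ex,
    isNilpotentAlg_ex, not_isSpecial_ex h2, finrank_ex⟩

end JD
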